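import Pool.Agent.W2helper64.RK.Engine
import Pool.Agent.W2helper64.RS.Main

set_option autoImplicit false

/-!
The random sieve model: four linear conditions at once, for all large `n` and all coefficients.
-/

namespace Pool.Agent.W2helper62.GG

open Finset Filter Topology MeasureTheory Pool.Agent.W2helper64.RS Pool.Agent.W2helper64.RK

/-- the dangerous classes: four linear functions of `y + 6 j`, for the primes `p > 3` -/
def Ph (c s : Fin 4 → ℤ) (y : ℕ) (p : Nat.Primes) (j : ℕ) : Finset (ZMod (p : ℕ)) :=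
  if (p : ℕ) ≤ 3 then ∅ else univ.image (fun i : Fin 4 => ((c i + s i * ((y + 6 * j : ℕ) : ℤ) : ℤ) : ZMod (p : ℕ)))

/-- the coefficients -/
def Sg (s : Fin 4 → ℤ) : Prop := ∀ i, s i = 1 ∨ s i = -1 ∨ s i = 2

theorem natCast_inj {p : ℕ} {j l : ℕ} (hj : j < p) (hl : l < p) (h : (j : ZMod p) = (l : ZMod p)) : j = l := by
  rw [ZMod.natCast_eq_natCast_iff] at h
  have h3 : j % p = l % p := h
  rwa [Nat.mod_eq_of_lt hj, Nat.mod_eq_of_lt hl] at h3

theorem unit_of {p : Nat.Primes} (hp : 3 < (p : ℕ)) {t : ℤ} (ht : t = 1 ∨ t = -1 ∨ t = 2) : ((t * 6 : ℤ) : ZMod (p : ℕ)) ≠ 0 := by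
  have : Fact ((p : ℕ).Prime) := ⟨p.2⟩
  intro h
  have h1 : ((p : ℕ) : ℤ) ∣ t * 6 := (ZMod.intCast_zmod_eq_zero_iff_dvd _ _).1 h
  have h12 : ((p : ℕ) : ℤ) ∣ 12 := by
    rcases ht with rfl | rfl | rfl
    · exact h1.trans (by norm_num)
    · exact h1.trans (by norm_num)
    · simpa using h1
  have h12' : (p : ℕ) ∣ 12 := by exact_mod_cast h12
  have h2 : (p : ℕ) ∣ 2 * 2 * 3 := h12'
  rcases (Nat.Prime.dvd_mul p.2).1 h2 with h3 | h3
  · rcases (Nat.Prime.dvd_mul p.2).1 h3 with h4 | h4 <;> exact absurd (Nat.le_of_dvd (by norm_num) h4) (by omega)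
  · exact absurd (Nat.le_of_dvd (by norm_num) h3) (by omega)

theorem adm_Ph {F : Finset Nat.Primes} (p : {x // x ∈ F}) (c s : Fin 4 → ℤ) (hs : Sg s) (y : ℕ) : Adm 4 p (Ph c s y p) := by
  classical
  have : NeZero ((p : Nat.Primes) : ℕ) := ⟨(p : Nat.Primes).2.ne_zero⟩
  by_cases hp : ((p : Nat.Primes) : ℕ) ≤ 3
  · have h0 : ∀ j, Ph c s y p j = ∅ := fun j => by unfold Ph; rw [if_pos hp]
    refine ⟨fun j => by rw [h0, h0], fun j => by rw [h0]; simp, fun r => ?_, fun r => ⟨0, by rw [h0]; simp⟩⟩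
    have : (range ((p : Nat.Primes) : ℕ)).filter (fun j => r ∈ Ph c s y p j) = ∅ := by
      rw [filter_eq_empty_iff]
      intro j _
      rw [h0]
      simp
    rw [this]
    simp
  · have hp3 : 3 < ((p : Nat.Primes) : ℕ) := by omega
    have h0 : ∀ j, Ph c s y p j = univ.image (fun i : Fin 4 => ((c i + s i * ((y + 6 * j : ℕ) : ℤ) : ℤ) : ZMod ((p : Nat.Primes) : ℕ))) :=
      fun j => by unfold Ph; rw [if_neg hp]
    have hfew : ∀ r, ((range ((p : Nat.Primes) : ℕ)).filter (fun j => r ∈ Ph c s y p j)).card ≤ 4 := by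
      intro r
      have hsub : (range ((p : Nat.Primes) : ℕ)).filter (fun j => r ∈ Ph c s y p j) ⊆
          (univ : Finset (Fin 4)).biUnion (fun i => (range ((p : Nat.Primes) : ℕ)).filter
            (fun j : ℕ => ((c i + s i * ((y + 6 * j : ℕ) : ℤ) : ℤ) : ZMod ((p : Nat.Primes) : ℕ)) = r)) := by
        intro j hj
        rw [Finset.mem_filter, h0, mem_image] at hj
        obtain ⟨hj1, i, -, hi⟩ := hj
        rw [mem_biUnion]
        exact ⟨i, mem_univ _, Finset.mem_filter.2 ⟨hj1, hi⟩⟩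
      refine (card_le_card hsub).trans (card_biUnion_le.trans ?_)
      have h1 : ∀ i ∈ (univ : Finset (Fin 4)), ((range ((p : Nat.Primes) : ℕ)).filter
            (fun j : ℕ => ((c i + s i * ((y + 6 * j : ℕ) : ℤ) : ℤ) : ZMod ((p : Nat.Primes) : ℕ)) = r)).card ≤ 1 := by
        intro i _
        rw [card_le_one]
        intro j hj l hl
        rw [Finset.mem_filter, mem_range] at hj hl
        have h2 := hj.2.trans hl.2.symm
        have h3 : ((s i * 6 : ℤ) : ZMod ((p : Nat.Primes) : ℕ)) * (((j : ℕ) : ZMod ((p : Nat.Primes) : ℕ)) - ((l : ℕ) : ZMod ((p : Nat.Primes) : ℕ))) = 0 := by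
          push_cast at h2 ⊢
          linear_combination h2
        have : Fact (((p : Nat.Primes) : ℕ).Prime) := ⟨(p : Nat.Primes).2⟩
        rcases mul_eq_zero.1 h3 with h4 | h4
        · exact absurd h4 (unit_of hp3 (hs i))
        · exact natCast_inj hj.1 hl.1 (sub_eq_zero.1 h4)
      refine (sum_le_sum h1).trans ?_
      simp
    refine ⟨fun j => ?_, fun j => ?_, hfew, fun r => ?_⟩
    · rw [h0, h0]
      congr 1
      funext i
      have : ((j : ℕ) : ZMod ((p : Nat.Primes) : ℕ)) = ((j % ((p : Nat.Primes) : ℕ) : ℕ) : ZMod ((p : Nat.Primes) : ℕ)) := by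
        rw [ZMod.natCast_mod]
      push_cast
      rw [this]
    · rw [h0]
      exact card_image_le.trans (by simp)
    · by_contra hcon
      push Not at hcon
      have hall : (range ((p : Nat.Primes) : ℕ)).filter (fun j => r ∈ Ph c s y p j) = range ((p : Nat.Primes) : ℕ) := by
        rw [filter_eq_self]
        exact fun j _ => hcon j
      have h1 := hfew r
      rw [hall, card_range] at h1
      have h4 : ((p : Nat.Primes) : ℕ) = 4 := by omega
      have h5 := (p : Nat.Primes).2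
      rw [h4] at h5
      exact absurd h5 (by norm_num)

/-- the index set of the union bound -/
noncomputable def TT (n : ℕ) : Finset ((Fin 4 → ℤ) × (Fin 4 → ℤ) × ℕ) :=
  (Fintype.piFinset fun _ : Fin 4 => Icc (-(2 * n : ℤ)) (2 * n)) ×ˢ
    ((Fintype.piFinset fun _ : Fin 4 => ({1, -1, 2} : Finset ℤ)) ×ˢ range (2 * n + 1))

lemma card_TT (n : ℕ) (hn : 1 ≤ n) : ((TT n).card : ℝ) ≤ 151875 * (n : ℝ) ^ 5 := by
  have h1 : (TT n).card = (4 * n + 1) ^ 4 * (3 ^ 4 * (2 * n + 1)) := by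
    unfold TT
    rw [card_product, card_product, Fintype.card_piFinset, Fintype.card_piFinset, card_range]
    simp only [Int.card_Icc, prod_const, card_univ, Fintype.card_fin]
    congr 2
    omega
  rw [h1]
  have hn1 : (1 : ℝ) ≤ n := by exact_mod_cast hn
  push_cast
  have e1 : (4 * (n : ℝ) + 1) ^ 4 ≤ (5 * (n : ℝ)) ^ 4 := pow_le_pow_left₀ (by positivity) (by linarith) 4
  calc (4 * (n : ℝ) + 1) ^ 4 * (81 * (2 * (n : ℝ) + 1)) ≤ (5 * (n : ℝ)) ^ 4 * (81 * (3 * (n : ℝ))) := by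
        apply mul_le_mul e1 _ (by positivity) (by positivity)
        linarith
    _ = 151875 * (n : ℝ) ^ 5 := by ring

theorem ae_four : ∃ C : ℝ, 2 ≤ C ∧ ∀ᵐ a ∂law, ∀ᶠ n : ℕ in atTop, ∀ c s : Fin 4 → ℤ, (∀ i, |c i| ≤ 2 * n) → Sg s →
    ∀ y : ℕ, y ≤ 2 * n → ∃ j ∈ Icc 1 ⌊(2 * Real.log n) ^ C⌋₊, ∀ p ∈ PX (2 * Real.log n), 3 < (p : ℕ) →
      ∀ i, ((c i + s i * ((y + 6 * j : ℕ) : ℤ) : ℤ) : ZMod (p : ℕ)) ≠ a p := by
  classical
  obtain ⟨C, hC, hE⟩ := law_engine 4 (by norm_num)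
  refine ⟨C, hC, ?_⟩
  have hlog : Tendsto (fun x : ℕ => 2 * Real.log (x : ℝ)) atTop atTop :=
    (Real.tendsto_log_atTop.comp tendsto_natCast_atTop_atTop).const_mul_atTop (by norm_num)
  have hb := bc (fun n : ℕ => ⋃ z ∈ (TT n).filter (fun z => Sg z.2.1),
      {a | Bad (PX (1 * (2 * Real.log n))) (Ph z.1 z.2.1 z.2.2) ⌊(2 * Real.log n) ^ C⌋₊ a}) 151875 (by norm_num) (by
    filter_upwards [hlog.eventually (hE 1 le_rfl), eventually_ge_atTop 1] with n hx hn1
    have hn0 : (1 : ℝ) ≤ n := by exact_mod_cast hn1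
    calc law (⋃ z ∈ (TT n).filter (fun z => Sg z.2.1), {a | Bad (PX (1 * (2 * Real.log n))) (Ph z.1 z.2.1 z.2.2) ⌊(2 * Real.log n) ^ C⌋₊ a})
        ≤ ∑ z ∈ (TT n).filter (fun z => Sg z.2.1), law {a | Bad (PX (1 * (2 * Real.log n))) (Ph z.1 z.2.1 z.2.2) ⌊(2 * Real.log n) ^ C⌋₊ a} :=
          measure_biUnion_finset_le _ _
      _ ≤ ∑ z ∈ (TT n).filter (fun z => Sg z.2.1), ENNReal.ofReal (Real.exp (-(4 * (2 * Real.log n)))) :=
          Finset.sum_le_sum fun z hz => hx (Ph z.1 z.2.1 z.2.2) (fun p => adm_Ph p _ _ (Finset.mem_filter.1 hz).2 _)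
      _ = ENNReal.ofReal ((((TT n).filter (fun z => Sg z.2.1)).card : ℝ) * Real.exp (-(4 * (2 * Real.log n)))) := by
          rw [sum_const, nsmul_eq_mul, ENNReal.ofReal_mul (by positivity), ENNReal.ofReal_natCast]
      _ ≤ _ := by
          apply ENNReal.ofReal_le_ofReal
          have h1 : Real.exp (-(4 * (2 * Real.log n))) = 1 / (n : ℝ) ^ 8 := by
            rw [Real.exp_neg, one_div]
            congr 1
            rw [← Real.exp_log (by linarith : (0 : ℝ) < n), Real.log_exp, ← Real.exp_nat_mul]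
            congr 1
            push_cast
            ring
          have h2 : (((TT n).filter (fun z => Sg z.2.1)).card : ℝ) ≤ 151875 * (n : ℝ) ^ 5 := by
            refine le_trans ?_ (card_TT n hn1)
            exact_mod_cast card_filter_le _ _
          rw [h1, mul_one_div, mul_one_div, div_le_div_iff₀ (by positivity) (by positivity)]
          calc (((TT n).filter (fun z => Sg z.2.1)).card : ℝ) * (n : ℝ) ^ 2 ≤ (151875 * (n : ℝ) ^ 5) * (n : ℝ) ^ 2 :=
                mul_le_mul_of_nonneg_right h2 (by positivity)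
            _ = 151875 * (n : ℝ) ^ 7 := by ring
            _ ≤ 151875 * (n : ℝ) ^ 8 := by
                apply mul_le_mul_of_nonneg_left _ (by norm_num)
                exact pow_le_pow_right₀ hn0 (by norm_num))
  filter_upwards [hb] with a ha
  filter_upwards [ha] with n hn c s hc hs y hy
  have hnb : ¬ Bad (PX (1 * (2 * Real.log n))) (Ph c s y) ⌊(2 * Real.log n) ^ C⌋₊ a := by
    intro hbad
    apply hn
    simp only [Set.mem_iUnion, exists_prop]
    refine ⟨(c, s, y), ?_, hbad⟩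
    rw [Finset.mem_filter]
    refine ⟨?_, hs⟩
    unfold TT
    rw [mem_product, mem_product, Fintype.mem_piFinset, Fintype.mem_piFinset, mem_range]
    refine ⟨fun i => ?_, fun i => ?_, Nat.lt_succ_of_le hy⟩
    · rw [Finset.mem_Icc]
      exact abs_le.1 (hc i)
    · rcases hs i with h | h | h <;> simp [h]
  unfold Bad at hnb
  push Not at hnb
  obtain ⟨j, hj, hjn⟩ := hnb
  refine ⟨j, hj, fun p hp hp3 i heq => ?_⟩
  rw [one_mul] at hjn
  refine hjn p hp ?_
  unfold Ph
  rw [if_neg (by omega), ← heq]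
  exact mem_image_of_mem _ (mem_univ i)

end Pool.Agent.W2helper62.GG
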