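import Pool.Agent.W2helper62.GG.G1

set_option autoImplicit false

/-!
The random sieve model: selection of elements, when the classes of `2` and `3` are zero.
-/

namespace Pool.Agent.W2helper62.GG

open Finset Filter Topology MeasureTheory Pool.Agent.W2helper64.RS Pool.Agent.W2helper64.RK

/-- the chosen classes modulo `2` and `3` are zero -/
def Zero (a : (p : Nat.Primes) → ZMod (p : ℕ)) : Prop := a ⟨2, Nat.prime_two⟩ = 0 ∧ a ⟨3, Nat.prime_three⟩ = 0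

theorem exp_two_le : Real.exp 2 ≤ 8 := by
  have : Real.exp 2 = Real.exp 1 * Real.exp 1 := by rw [← Real.exp_add]; norm_num
  rw [this]
  have := Real.exp_one_lt_d9
  have := Real.exp_pos 1
  nlinarith

/-- membership in the random set -/
theorem mem_R_of {a : (p : Nat.Primes) → ZMod (p : ℕ)} (h0 : Zero a) {n w : ℕ}
    (hn : 1 ≤ n) (hw8 : 8 ≤ w) (hwn : w ≤ n ^ 2) (ho : w % 2 = 1) (ht : w % 3 ≠ 0)
    (h : ∀ p ∈ PX (2 * Real.log n), 3 < (p : ℕ) → ((w : ℕ) : ZMod (p : ℕ)) ≠ a p) : w ∈ R a := by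
  refine ⟨exp_two_le.trans (by exact_mod_cast hw8), fun p hp heq => ?_⟩
  by_cases hp3 : (p : ℕ) ≤ 3
  · have h23 : (p : ℕ) = 2 ∨ (p : ℕ) = 3 := by
      have := p.2.two_le
      omega
    rcases h23 with hh | hh
    · have hpe : p = ⟨2, Nat.prime_two⟩ := Subtype.ext hh
      subst hpe
      rw [h0.1] at heq
      have : (2 : ℕ) ∣ w := (ZMod.natCast_eq_zero_iff w 2).1 heq
      omega
    · have hpe : p = ⟨3, Nat.prime_three⟩ := Subtype.ext hh
      subst hpe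
      rw [h0.2] at heq
      have : (3 : ℕ) ∣ w := (ZMod.natCast_eq_zero_iff w 3).1 heq
      omega
  · refine h p ?_ (by omega) heq
    rw [mem_PX]
    refine hp.trans (mul_le_mul_of_nonneg_left ?_ (V_nonneg _))
    have hw0 : (0 : ℝ) < w := by exact_mod_cast (by omega : 0 < w)
    have h1 : Real.log w ≤ Real.log ((n : ℝ) ^ 2) := by
      apply Real.log_le_log hw0
      exact_mod_cast hwn
    rw [Real.log_pow] at h1
    push_cast at h1
    exact h1

theorem ae_sel : ∀ᵐ a ∂law, Zero a → ∀ᶠ n : ℕ in atTop, ∃ W : ℕ, 4 * W + 100 ≤ n / 4 ∧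
    ∀ c s : Fin 4 → ℤ, (∀ i, |c i| ≤ 2 * n) → Sg s → ∀ y ρ : ℕ, y ≤ n → ρ < 6 →
      (∀ i, ∀ x : ℕ, y ≤ x → x ≤ y + W → 8 ≤ c i + s i * x) →
      (∀ i, (c i + s i * ρ) % 2 = 1 ∧ (c i + s i * ρ) % 3 ≠ 0) →
      ∃ x : ℕ, y ≤ x ∧ x ≤ y + W ∧ x % 6 = ρ ∧ ∀ i, (c i + s i * x).toNat ∈ R a := by
  obtain ⟨C, hC, h⟩ := ae_four
  filter_upwards [h] with a ha h0
  have hlog : Tendsto (fun x : ℕ => Real.log (x : ℝ)) atTop atTop :=
    Real.tendsto_log_atTop.comp tendsto_natCast_atTop_atTop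
  have h1 : ∀ᶠ n : ℕ in atTop, (2 * Real.log (n : ℝ)) ^ C ≤ (n : ℝ) / 200 := by
    have e1 := (isLittleO_log_rpow_rpow_atTop C (show (0 : ℝ) < 1 by norm_num)).bound
        (show (0 : ℝ) < 1 / (200 * 2 ^ C) by positivity)
    have e2 := (tendsto_natCast_atTop_atTop (R := ℝ)).eventually e1
    filter_upwards [e2, eventually_ge_atTop 1] with n hn hn1
    have hn1' : (1 : ℝ) ≤ n := by exact_mod_cast hn1
    have hl : 0 ≤ Real.log (n : ℝ) := Real.log_nonneg hn1'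
    rw [Real.norm_of_nonneg (by positivity), Real.norm_of_nonneg (by positivity), Real.rpow_one] at hn
    rw [Real.mul_rpow (by norm_num) hl]
    calc (2 : ℝ) ^ C * Real.log (n : ℝ) ^ C ≤ 2 ^ C * (1 / (200 * 2 ^ C) * n) := mul_le_mul_of_nonneg_left hn (by positivity)
      _ = (n : ℝ) / 200 := by field_simp
  filter_upwards [ha, h1, eventually_ge_atTop 10000] with n hn hsmall hn4
  have hJ : ⌊(2 * Real.log (n : ℝ)) ^ C⌋₊ ≤ n / 200 := by
    have h2 : ⌊(2 * Real.log (n : ℝ)) ^ C⌋₊ ≤ ⌊(n : ℝ) / 200⌋₊ := Nat.floor_mono hsmall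
    have h3 : ⌊(n : ℝ) / 200⌋₊ = n / 200 := by
      have := Nat.floor_div_eq_div (K := ℝ) n 200
      push_cast at this
      exact this
    omega
  obtain ⟨J, hJd⟩ : ∃ J, J = ⌊(2 * Real.log (n : ℝ)) ^ C⌋₊ := ⟨_, rfl⟩
  rw [← hJd] at hn hJ
  refine ⟨6 * J + 6, by omega, fun c s hc hs y ρ hy hρ hpos hres => ?_⟩
  obtain ⟨j, hj, hjp⟩ := hn c s hc hs (6 * (y / 6) + ρ) (by omega)
  rw [Finset.mem_Icc] at hj
  obtain ⟨x, hx⟩ : ∃ x, x = 6 * (y / 6) + ρ + 6 * j := ⟨_, rfl⟩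
  have hx1 : y ≤ x := by omega
  have hx2 : x ≤ y + (6 * J + 6) := by omega
  refine ⟨x, hx1, hx2, by omega, fun i => ?_⟩
  have hge := hpos i x hx1 hx2
  have hci := abs_le.1 (hc i)
  have hup : c i + s i * x ≤ 5 * n := by
    rcases hs i with h | h | h <;> rw [h] <;> omega
  have hmod : (c i + s i * x) % 2 = 1 ∧ (c i + s i * x) % 3 ≠ 0 := by
    have h3 := hres i
    have hxz : (x : ℤ) = ρ + 6 * ((y / 6 + j : ℕ) : ℤ) := by
      rw [hx]
      push_cast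
      ring
    rw [hxz]
    obtain ⟨m, hm⟩ : ∃ m : ℤ, m = ((y / 6 + j : ℕ) : ℤ) := ⟨_, rfl⟩
    rw [← hm]
    rcases hs i with h | h | h <;> rw [h] at h3 ⊢ <;> omega
  obtain ⟨w, hw⟩ : ∃ w, w = (c i + s i * x).toNat := ⟨_, rfl⟩
  have hwz : (w : ℤ) = c i + s i * x := by rw [hw]; exact Int.toNat_of_nonneg (by omega)
  rw [← hw]
  have hn2 : 5 * n ≤ n ^ 2 := by nlinarith
  refine mem_R_of h0 (by omega) (by omega) (by
    have : (w : ℤ) ≤ 5 * n := by omega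
    have : w ≤ 5 * n := by exact_mod_cast this
    omega) (by omega) (by omega) (n := n) ?_
  intro p hp hp3
  have h4 := hjp p hp hp3 i
  rw [← hx, ← hwz] at h4
  rwa [Int.cast_natCast] at h4

end Pool.Agent.W2helper62.GG
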