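import Pool.Agent.W2helper62.GG.G2

set_option autoImplicit false

/-!
The graph of the half vertices: upper bound for the distances.
-/

namespace Pool.Agent.W2helper62.GG

open Finset Filter Topology MeasureTheory Pool.Agent.W2helper64.RS Pool.Agent.W2helper64.RK

/-- the selection property -/
def Sel (a : (p : Nat.Primes) → ZMod (p : ℕ)) (n W : ℕ) : Prop :=
    ∀ c s : Fin 4 → ℤ, (∀ i, |c i| ≤ 2 * n) → Sg s → ∀ y ρ : ℕ, y ≤ n → ρ < 6 →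
      (∀ i, ∀ x : ℕ, y ≤ x → x ≤ y + W → 8 ≤ c i + s i * x) →
      (∀ i, (c i + s i * ρ) % 2 = 1 ∧ (c i + s i * ρ) % 3 ≠ 0) →
      ∃ x : ℕ, y ≤ x ∧ x ≤ y + W ∧ x % 6 = ρ ∧ ∀ i, (c i + s i * x).toNat ∈ R a

/-- the selection property for four functions -/
theorem sel4 {a : (p : Nat.Primes) → ZMod (p : ℕ)} {n W : ℕ} (h : Sel a n W) (c0 c1 c2 c3 s0 s1 s2 s3 : ℤ)
    (hc0 : |c0| ≤ 2 * n) (hc1 : |c1| ≤ 2 * n) (hc2 : |c2| ≤ 2 * n) (hc3 : |c3| ≤ 2 * n)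
    (hs0 : s0 = 1 ∨ s0 = -1 ∨ s0 = 2) (hs1 : s1 = 1 ∨ s1 = -1 ∨ s1 = 2)
    (hs2 : s2 = 1 ∨ s2 = -1 ∨ s2 = 2) (hs3 : s3 = 1 ∨ s3 = -1 ∨ s3 = 2)
    (y ρ : ℕ) (hy : y ≤ n) (hρ : ρ < 6)
    (hp0 : ∀ x : ℕ, y ≤ x → x ≤ y + W → 8 ≤ c0 + s0 * x) (hp1 : ∀ x : ℕ, y ≤ x → x ≤ y + W → 8 ≤ c1 + s1 * x)
    (hp2 : ∀ x : ℕ, y ≤ x → x ≤ y + W → 8 ≤ c2 + s2 * x) (hp3 : ∀ x : ℕ, y ≤ x → x ≤ y + W → 8 ≤ c3 + s3 * x)
    (hr0 : (c0 + s0 * ρ) % 2 = 1 ∧ (c0 + s0 * ρ) % 3 ≠ 0) (hr1 : (c1 + s1 * ρ) % 2 = 1 ∧ (c1 + s1 * ρ) % 3 ≠ 0)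
    (hr2 : (c2 + s2 * ρ) % 2 = 1 ∧ (c2 + s2 * ρ) % 3 ≠ 0) (hr3 : (c3 + s3 * ρ) % 2 = 1 ∧ (c3 + s3 * ρ) % 3 ≠ 0) :
    ∃ x : ℕ, y ≤ x ∧ x ≤ y + W ∧ x % 6 = ρ ∧ (c0 + s0 * x).toNat ∈ R a ∧ (c1 + s1 * x).toNat ∈ R a ∧
      (c2 + s2 * x).toNat ∈ R a ∧ (c3 + s3 * x).toNat ∈ R a := by
  obtain ⟨x, h1, h2, h3, h4⟩ := h ![c0, c1, c2, c3] ![s0, s1, s2, s3]
    (by intro i; fin_cases i; exacts [hc0, hc1, hc2, hc3])
    (by intro i; fin_cases i; exacts [hs0, hs1, hs2, hs3]) y ρ hy hρ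
    (by intro i; fin_cases i; exacts [hp0, hp1, hp2, hp3])
    (by intro i; fin_cases i; exacts [hr0, hr1, hr2, hr3])
  exact ⟨x, h1, h2, h3, h4 0, h4 1, h4 2, h4 3⟩

/-- the sign of `x - u` on a window -/
theorem sgn {u y W n : ℕ} (hu : u ≤ n) (h : u + 8 ≤ y ∨ y + W + 16 ≤ u) :
    ∃ c s : ℤ, |c| ≤ n ∧ ((c = u ∧ s = -1) ∨ (c = -u ∧ s = 1)) ∧
      (∀ x : ℕ, y ≤ x → x ≤ y + W → 8 ≤ c + s * x ∧ (c + s * x).toNat = Nat.dist u x) ∧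
      (∀ x : ℕ, y ≤ x → x ≤ y + W → 8 ≤ c + s * (x + 3) ∧ (c + s * (x + 3)).toNat = Nat.dist u (x + 3)) := by
  rcases h with h | h
  · refine ⟨-u, 1, ?_, Or.inr ⟨rfl, rfl⟩, fun x h1 h2 => ⟨by omega, ?_⟩, fun x h1 h2 => ⟨by omega, ?_⟩⟩
    · rw [abs_neg, Nat.abs_cast]
      exact_mod_cast hu
    · rw [Nat.dist_eq_sub_of_le (by omega)]
      omega
    · rw [Nat.dist_eq_sub_of_le (by omega)]
      omega
  · refine ⟨u, -1, ?_, Or.inl ⟨rfl, rfl⟩, fun x h1 h2 => ⟨by omega, ?_⟩, fun x h1 h2 => ⟨by omega, ?_⟩⟩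
    · rw [Nat.abs_cast]
      exact_mod_cast hu
    · rw [Nat.dist_eq_sub_of_le_right (by omega)]
      omega
    · rw [Nat.dist_eq_sub_of_le_right (by omega)]
      omega

/-- the choice of the window -/
theorem window {n W : ℕ} (hW : 4 * W + 100 ≤ n / 4) (u v : ℕ) :
    ∃ y : ℕ, 100 ≤ y ∧ y + W + 4 ≤ n ∧ (u + 8 ≤ y ∨ y + W + 16 ≤ u) ∧ (v + 8 ≤ y ∨ y + W + 16 ≤ v) := by
  obtain ⟨q, hq⟩ : ∃ q, q = n / 4 := ⟨_, rfl⟩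
  rw [← hq] at hW
  have hqn : 4 * q ≤ n := by omega
  by_cases h1 : (u + 8 ≤ q ∨ q + W + 16 ≤ u) ∧ (v + 8 ≤ q ∨ q + W + 16 ≤ v)
  · exact ⟨q, by omega, by omega, h1.1, h1.2⟩
  by_cases h2 : (u + 8 ≤ 2 * q ∨ 2 * q + W + 16 ≤ u) ∧ (v + 8 ≤ 2 * q ∨ 2 * q + W + 16 ≤ v)
  · exact ⟨2 * q, by omega, by omega, h2.1, h2.2⟩
  exact ⟨3 * q, by omega, by omega, by omega, by omega⟩

/-- the class of `ρ` can be reached from `u` -/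
def Ok (u ρ : ℕ) : Prop := (u + ρ) % 2 = 1 ∧ (u + ρ) % 3 ≠ 0 ∧ (u + 2 * ρ) % 3 ≠ 0

theorem lemA {a : (p : Nat.Primes) → ZMod (p : ℕ)} {n W : ℕ} (hW : 4 * W + 100 ≤ n / 4) (h : Sel a n W)
    {u v ρ : ℕ} (hu : u ≤ n) (hv : v ≤ n) (hρ : ρ < 6) (hou : Ok u ρ) (hov : Ok v ρ) :
    ∃ x : ℕ, 1 ≤ x ∧ x ≤ n ∧ x % 6 = ρ ∧ x ≠ u ∧ x ≠ v ∧ u + x ∈ R a ∧ Nat.dist u x ∈ R a ∧
      v + x ∈ R a ∧ Nat.dist v x ∈ R a := by
  obtain ⟨y, hy1, hy2, hyu, hyv⟩ := window hW u v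
  obtain ⟨c, s, hc, hcs, hpos, -⟩ := sgn hu hyu
  obtain ⟨d, t, hd, hdt, hpos', -⟩ := sgn hv hyv
  obtain ⟨ho1, ho2, ho3⟩ := hou
  obtain ⟨hp1, hp2, hp3⟩ := hov
  obtain ⟨x, hx1, hx2, hx3, hx4, hx5, hx6, hx7⟩ := sel4 h u c v d 1 s 1 t
    (by rw [Nat.abs_cast]; omega) (by omega) (by rw [Nat.abs_cast]; omega) (by omega)
    (Or.inl rfl) (by omega) (Or.inl rfl) (by omega) y ρ (by omega) hρ
    (fun x h1 h2 => by omega) (fun x h1 h2 => (hpos x h1 h2).1) (fun x h1 h2 => by omega)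
    (fun x h1 h2 => (hpos' x h1 h2).1) (by omega)
    (by rcases hcs with ⟨rfl, rfl⟩ | ⟨rfl, rfl⟩ <;> omega) (by omega)
    (by rcases hdt with ⟨rfl, rfl⟩ | ⟨rfl, rfl⟩ <;> omega)
  rw [(hpos x hx1 hx2).2] at hx5
  rw [(hpos' x hx1 hx2).2] at hx7
  have e1 : ((u : ℤ) + 1 * x).toNat = u + x := by omega
  have e2 : ((v : ℤ) + 1 * x).toNat = v + x := by omega
  rw [e1] at hx4
  rw [e2] at hx6
  exact ⟨x, by omega, by omega, hx3, by omega, by omega, hx4, hx5, hx6, hx7⟩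

theorem lemC1 {a : (p : Nat.Primes) → ZMod (p : ℕ)} {n W : ℕ} (hW : 4 * W + 100 ≤ n / 4) (h : Sel a n W)
    {u : ℕ} (hu : u ≤ n) (hu6 : u % 6 = 0) :
    ∃ x : ℕ, 1 ≤ x ∧ x + 3 ≤ n ∧ x % 6 = 1 ∧ x ≠ u ∧ u + x ∈ R a ∧ Nat.dist u x ∈ R a ∧ 2 * x + 3 ∈ R a := by
  obtain ⟨y, hy1, hy2, hyu, -⟩ := window hW u u
  obtain ⟨c, s, hc, hcs, hpos, -⟩ := sgn hu hyu
  obtain ⟨x, hx1, hx2, hx3, hx4, hx5, hx6, -⟩ := sel4 h u c 3 3 1 s 2 2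
    (by rw [Nat.abs_cast]; omega) (by omega) (by norm_num; omega) (by norm_num; omega)
    (Or.inl rfl) (by omega) (by omega) (by omega) y 1 (by omega) (by norm_num)
    (fun x h1 h2 => by omega) (fun x h1 h2 => (hpos x h1 h2).1) (fun x h1 h2 => by omega)
    (fun x h1 h2 => by omega) (by omega)
    (by rcases hcs with ⟨rfl, rfl⟩ | ⟨rfl, rfl⟩ <;> omega) (by omega) (by omega)
  rw [(hpos x hx1 hx2).2] at hx5
  have e1 : ((u : ℤ) + 1 * x).toNat = u + x := by omega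
  have e2 : ((3 : ℤ) + 2 * x).toNat = 2 * x + 3 := by omega
  rw [e1] at hx4
  rw [e2] at hx6
  exact ⟨x, by omega, by omega, hx3, by omega, hx4, hx5, hx6⟩

theorem lemC2 {a : (p : Nat.Primes) → ZMod (p : ℕ)} {n W : ℕ} (hW : 4 * W + 100 ≤ n / 4) (h : Sel a n W)
    {v : ℕ} (hv : v ≤ n) (hv6 : v % 6 = 3) :
    ∃ x : ℕ, 1 ≤ x ∧ x + 3 ≤ n ∧ x % 6 = 1 ∧ x + 3 ≠ v ∧ v + (x + 3) ∈ R a ∧ Nat.dist v (x + 3) ∈ R a ∧
      2 * x + 3 ∈ R a := by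
  obtain ⟨y, hy1, hy2, hyv, -⟩ := window hW v v
  obtain ⟨c, s, hc, hcs, -, hpos⟩ := sgn hv hyv
  have hs1 : s = 1 ∨ s = -1 := by omega
  have hcc : |c + 3 * s| ≤ 2 * n := by
    rw [abs_le] at hc ⊢
    omega
  have hform : ∀ x : ℕ, c + 3 * s + s * x = c + s * (x + 3) := fun x => by ring
  obtain ⟨x, hx1, hx2, hx3, hx4, hx5, hx6, -⟩ := sel4 h (v + 3) (c + 3 * s) 3 3 1 s 2 2
    (by rw [abs_le]; omega) hcc (by norm_num; omega) (by norm_num; omega)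
    (Or.inl rfl) (by omega) (by omega) (by omega) y 1 (by omega) (by norm_num)
    (fun x h1 h2 => by omega) (fun x h1 h2 => by rw [hform]; exact (hpos x h1 h2).1) (fun x h1 h2 => by omega)
    (fun x h1 h2 => by omega) (by omega)
    (by rcases hcs with ⟨rfl, rfl⟩ | ⟨rfl, rfl⟩ <;> omega) (by omega) (by omega)
  rw [hform, (hpos x hx1 hx2).2] at hx5
  have e1 : ((v : ℤ) + 3 + 1 * x).toNat = v + (x + 3) := by omega
  have e2 : ((3 : ℤ) + 2 * x).toNat = 2 * x + 3 := by omega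
  rw [e1] at hx4
  rw [e2] at hx6
  have hne : x + 3 ≠ v := by
    rintro rfl
    have h8 := (hpos x hx1 hx2).1
    have h9 := (hpos x hx1 hx2).2
    rw [Nat.dist_self] at h9
    omega
  exact ⟨x, by omega, by omega, hx3, hne, hx4, hx5, hx6⟩

/-- the graph of the half vertices in `S`, with `P` in the role of the primes -/
def HG (P S : Set ℕ) : SimpleGraph ℕ where
  Adj i j := i ≠ j ∧ i ∈ S ∧ j ∈ S ∧ i + j ∈ P ∧ Nat.dist i j ∈ P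
  symm := ⟨fun i j h => ⟨h.1.symm, h.2.2.1, h.2.1, by rw [add_comm]; exact h.2.2.2.1,
    by rw [Nat.dist_comm]; exact h.2.2.2.2⟩⟩
  loopless := ⟨fun _ h => h.1 rfl⟩

/-- the model of the odd primes -/
def Pm (a : (p : Nat.Primes) → ZMod (p : ℕ)) : Set ℕ := {m | m = 3 ∨ m = 5 ∨ m = 7 ∨ m ∈ R a}

theorem edist_adj {V : Type*} {G : SimpleGraph V} {x y : V} (h : G.Adj x y) : G.edist x y ≤ 1 := by
  rw [SimpleGraph.edist_eq_one_iff_adj.2 h]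

theorem upper {a : (p : Nat.Primes) → ZMod (p : ℕ)} {n W : ℕ} (hW : 4 * W + 100 ≤ n / 4) (h : Sel a n W)
    {P S : Set ℕ} (hP : Pm a ⊆ P) (hS1 : ∀ x, 1 ≤ x → x ≤ n → x ∈ S) (hS2 : ∀ x ∈ S, x ≤ n) :
    ∀ u ∈ S, ∀ v ∈ S, (HG P S).edist u v ≤ 5 := by
  have hR : ∀ {m : ℕ}, m ∈ R a → m ∈ P := fun hm => hP (Or.inr (Or.inr (Or.inr hm)))
  have h3 : 3 ∈ P := hP (Or.inl rfl)
  -- same type
  have tri : ∀ {u v w : ℕ} {k l : ℕ∞}, (HG P S).edist u v ≤ k → (HG P S).edist v w ≤ l →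
      (HG P S).edist u w ≤ k + l := fun h1 h2 => (SimpleGraph.edist_triangle).trans (add_le_add h1 h2)
  have comm : ∀ {u v : ℕ} {k : ℕ∞}, (HG P S).edist u v ≤ k → (HG P S).edist v u ≤ k := fun h1 => by
    rw [SimpleGraph.edist_comm]; exact h1
  have nbr : ∀ u ∈ S, ∀ ρ, ρ < 6 → Ok u ρ → ∃ x ∈ S, x % 6 = ρ ∧ (HG P S).edist u x ≤ 1 := by
    intro u hu ρ hρ ho
    obtain ⟨x, h1, h2, h4, h5, -, h6, h7, -, -⟩ := lemA hW h (hS2 u hu) (hS2 u hu) hρ ho ho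
    have hx := hS1 x h1 h2
    exact ⟨x, hx, h4, edist_adj ⟨h5.symm, hu, hx, hR h6, hR h7⟩⟩
  have two : ∀ u ∈ S, ∀ v ∈ S, (∃ ρ, ρ < 6 ∧ Ok u ρ ∧ Ok v ρ) → (HG P S).edist u v ≤ 2 := by
    rintro u hu v hv ⟨ρ, hρ, ho, ho'⟩
    obtain ⟨x, h1, h2, h4, h5, h6, h7, h8, h9, h10⟩ := lemA hW h (hS2 u hu) (hS2 v hv) hρ ho ho'
    have hx := hS1 x h1 h2
    have e1 : (HG P S).edist u x ≤ 1 := edist_adj ⟨h5.symm, hu, hx, hR h7, hR h8⟩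
    have e2 : (HG P S).edist v x ≤ 1 := edist_adj ⟨h6.symm, hv, hx, hR h9, hR h10⟩
    have := tri e1 (comm e2)
    rwa [one_add_one_eq_two] at this
  -- the types: 0, 3, {1, 5}, {2, 4}
  have t00 : ∀ u ∈ S, ∀ v ∈ S, u % 6 = 0 → v % 6 = 0 → (HG P S).edist u v ≤ 2 := fun u hu v hv h1 h2 =>
    two u hu v hv ⟨1, by norm_num, by unfold Ok; omega, by unfold Ok; omega⟩
  have t33 : ∀ u ∈ S, ∀ v ∈ S, u % 6 = 3 → v % 6 = 3 → (HG P S).edist u v ≤ 2 := fun u hu v hv h1 h2 =>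
    two u hu v hv ⟨2, by norm_num, by unfold Ok; omega, by unfold Ok; omega⟩
  have t11 : ∀ u ∈ S, ∀ v ∈ S, (u % 6 = 1 ∨ u % 6 = 5) → (v % 6 = 1 ∨ v % 6 = 5) → (HG P S).edist u v ≤ 2 :=
    fun u hu v hv h1 h2 => two u hu v hv ⟨0, by norm_num, by unfold Ok; omega, by unfold Ok; omega⟩
  have t22 : ∀ u ∈ S, ∀ v ∈ S, (u % 6 = 2 ∨ u % 6 = 4) → (v % 6 = 2 ∨ v % 6 = 4) → (HG P S).edist u v ≤ 2 :=
    fun u hu v hv h1 h2 => two u hu v hv ⟨3, by norm_num, by unfold Ok; omega, by unfold Ok; omega⟩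
  have t01 : ∀ u ∈ S, ∀ v ∈ S, u % 6 = 0 → (v % 6 = 1 ∨ v % 6 = 5) → (HG P S).edist u v ≤ 3 := by
    intro u hu v hv h1 h2
    obtain ⟨x, hx, hx6, hx1⟩ := nbr v hv 0 (by norm_num) (by unfold Ok; omega)
    have := tri (t00 u hu x hx h1 hx6) (comm hx1)
    rwa [two_add_one_eq_three] at this
  have t23 : ∀ u ∈ S, ∀ v ∈ S, (u % 6 = 2 ∨ u % 6 = 4) → v % 6 = 3 → (HG P S).edist u v ≤ 3 := by
    intro u hu v hv h1 h2
    obtain ⟨x, hx, hx6, hx1⟩ := nbr u hu 3 (by norm_num) (by unfold Ok; omega)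
    have := comm (tri (t33 v hv x hx h2 hx6) (comm hx1))
    rwa [two_add_one_eq_three] at this
  have sp : ∀ x, 1 ≤ x → x + 3 ≤ n → 2 * x + 3 ∈ R a → (HG P S).edist x (x + 3) ≤ 1 := by
    intro x h1 h2 h4
    refine edist_adj ⟨by omega, hS1 _ h1 (by omega), hS1 _ (by omega) h2, ?_, ?_⟩
    · have : x + (x + 3) = 2 * x + 3 := by ring
      rw [this]
      exact hR h4
    · rw [Nat.dist_eq_sub_of_le (by omega)]
      have : x + 3 - x = 3 := by omega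
      rw [this]
      exact h3
  have t02 : ∀ u ∈ S, ∀ v ∈ S, u % 6 = 0 → (v % 6 = 2 ∨ v % 6 = 4) → (HG P S).edist u v ≤ 4 := by
    intro u hu v hv h1 h2
    obtain ⟨x, h4, h5, h6, h7, h8, h9, h10⟩ := lemC1 hW h (hS2 u hu) h1
    have hx := hS1 x h4 (by omega)
    have hx3 := hS1 (x + 3) (by omega) h5
    have e1 : (HG P S).edist u x ≤ 1 := edist_adj ⟨h7.symm, hu, hx, hR h8, hR h9⟩
    have := tri (tri e1 (sp x h4 h5 h10)) (t22 (x + 3) hx3 v hv (by omega) h2)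
    norm_num at this
    exact this
  have t13 : ∀ u ∈ S, ∀ v ∈ S, (u % 6 = 1 ∨ u % 6 = 5) → v % 6 = 3 → (HG P S).edist u v ≤ 4 := by
    intro u hu v hv h1 h2
    obtain ⟨x, h4, h5, h6, h7, h8, h9, h10⟩ := lemC2 hW h (hS2 v hv) h2
    have hx := hS1 x h4 (by omega)
    have hx3 := hS1 (x + 3) (by omega) h5
    have e1 : (HG P S).edist v (x + 3) ≤ 1 := edist_adj ⟨h7.symm, hv, hx3, hR h8, hR h9⟩
    have := comm (tri (tri e1 (comm (sp x h4 h5 h10))) (t11 x hx u hu (by omega) h1))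
    norm_num at this
    exact this
  have t03 : ∀ u ∈ S, ∀ v ∈ S, u % 6 = 0 → v % 6 = 3 → (HG P S).edist u v ≤ 5 := by
    intro u hu v hv h1 h2
    obtain ⟨x, hx, hx6, hx1⟩ := nbr v hv 2 (by norm_num) (by unfold Ok; omega)
    have := tri (t02 u hu x hx h1 (by omega)) (comm hx1)
    norm_num at this
    exact this
  have t12 : ∀ u ∈ S, ∀ v ∈ S, (u % 6 = 1 ∨ u % 6 = 5) → (v % 6 = 2 ∨ v % 6 = 4) →
      (HG P S).edist u v ≤ 5 := by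
    intro u hu v hv h1 h2
    obtain ⟨x, hx, hx6, hx1⟩ := nbr u hu 0 (by norm_num) (by unfold Ok; omega)
    have := tri hx1 (t02 x hx v hv hx6 h2)
    norm_num at this
    exact this
  have l2 : (2 : ℕ∞) ≤ 5 := by norm_num
  have l3 : (3 : ℕ∞) ≤ 5 := by norm_num
  have l4 : (4 : ℕ∞) ≤ 5 := by norm_num
  intro u hu v hv
  have hu' : u % 6 = 0 ∨ u % 6 = 3 ∨ (u % 6 = 1 ∨ u % 6 = 5) ∨ (u % 6 = 2 ∨ u % 6 = 4) := by omega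
  have hv' : v % 6 = 0 ∨ v % 6 = 3 ∨ (v % 6 = 1 ∨ v % 6 = 5) ∨ (v % 6 = 2 ∨ v % 6 = 4) := by omega
  rcases hu' with h1 | h1 | h1 | h1 <;> rcases hv' with h2 | h2 | h2 | h2
  · exact (t00 u hu v hv h1 h2).trans l2
  · exact t03 u hu v hv h1 h2
  · exact (t01 u hu v hv h1 h2).trans l3
  · exact (t02 u hu v hv h1 h2).trans l4
  · exact comm (t03 v hv u hu h2 h1)
  · exact (t33 u hu v hv h1 h2).trans l2
  · exact comm ((t13 v hv u hu h2 h1).trans l4)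
  · exact comm ((t23 v hv u hu h2 h1).trans l3)
  · exact comm ((t01 v hv u hu h2 h1).trans l3)
  · exact (t13 u hu v hv h1 h2).trans l4
  · exact (t11 u hu v hv h1 h2).trans l2
  · exact t12 u hu v hv h1 h2
  · exact comm ((t02 v hv u hu h2 h1).trans l4)
  · exact (t23 u hu v hv h1 h2).trans l3
  · exact comm (t12 v hv u hu h2 h1)
  · exact (t22 u hu v hv h1 h2).trans l2

end Pool.Agent.W2helper62.GG
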