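import Pool.Agent.W2helper62.GG.G3

set_option autoImplicit false

/-!
The graph of the half vertices: lower bound for one distance.
-/

namespace Pool.Agent.W2helper62.GG

open Finset Filter Topology MeasureTheory Pool.Agent.W2helper64.RS Pool.Agent.W2helper64.RK

/-- auxiliary primes -/
noncomputable def qq (t : ℕ) : Nat.Primes := ⟨Nat.nth Nat.Prime (3 + t), Nat.prime_nth_prime _⟩

theorem qq_gt (t : ℕ) : 3 < (qq t : ℕ) := by
  have := Nat.add_two_le_nth_prime (3 + t)
  show 3 < Nat.nth Nat.Prime (3 + t)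
  omega

theorem qq_inj {s t : ℕ} (h : (qq s : ℕ) = (qq t : ℕ)) : s = t := by
  have h1 : Nat.nth Nat.Prime (3 + s) = Nat.nth Nat.Prime (3 + t) := h
  have := Nat.nth_injective Nat.infinite_setOfPred_prime h1
  omega

theorem two_ne {p : Nat.Primes} (hp : 3 < (p : ℕ)) {t : ℤ} (ht : t = 1 ∨ t = 2) : ((t : ℤ) : ZMod (p : ℕ)) ≠ 0 := by
  intro h
  have h1 : ((p : ℕ) : ℤ) ∣ t := (ZMod.intCast_zmod_eq_zero_iff_dvd _ _).1 h
  have h2 : ((p : ℕ) : ℤ) ≤ t := Int.le_of_dvd (by omega) h1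
  omega

/-- there are arbitrarily large numbers such that given linear functions of them are not in the random set -/
theorem exists_kill (a : (p : Nat.Primes) → ZMod (p : ℕ)) (T r : ℕ) (hr : r < 6) (α β : ℕ → ℤ)
    (hα : ∀ t, α t = 1 ∨ α t = 2) :
    ∃ u : ℕ, u % 6 = r ∧ 100 ≤ u ∧ ∀ t < T, ∀ w : ℕ, (w : ℤ) = α t * u + β t → w ∉ R a ∧ 100 ≤ w := by
  classical
  obtain ⟨n0, hn0⟩ := Nat.chineseRemainderOfFinset
    (fun t : ℕ => ((a (qq t) - ((β t : ℤ) : ZMod (qq t : ℕ))) / ((α t : ℤ) : ZMod (qq t : ℕ))).val)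
    (fun t : ℕ => (qq t : ℕ)) (range T)
    (fun t _ => (qq t).2.ne_zero) (by
      intro s _ t _ hst
      show Nat.Coprime _ _
      rw [Nat.coprime_primes (qq s).2 (qq t).2]
      exact fun h => hst (qq_inj h))
  set Q : ℕ := ∏ t ∈ range T, (qq t : ℕ) with hQ
  have hQ0 : 0 < Q := prod_pos fun t _ => (qq t).2.pos
  have hco : Nat.Coprime Q 6 := by
    rw [hQ]
    apply Nat.Coprime.prod_left
    intro t _
    have h1 := qq_gt t
    have h2 : Nat.Coprime (qq t : ℕ) 2 := (Nat.coprime_primes (qq t).2 Nat.prime_two).2 (by omega)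
    have h3 : Nat.Coprime (qq t : ℕ) 3 := (Nat.coprime_primes (qq t).2 Nat.prime_three).2 (by omega)
    have : Nat.Coprime (qq t : ℕ) (2 * 3) := h2.mul_right h3
    exact this
  obtain ⟨n1, hn1, hn2⟩ := Nat.chineseRemainder hco n0 r
  have hkill : ∀ᶠ x : ℕ in atTop, ∀ t ∈ range T, 1 ≤ V (qq t : ℕ) * Real.log x := by
    rw [Filter.eventually_all_finset]
    intro t _
    have hV : 0 < V (qq t : ℕ) := by
      obtain ⟨c, hc, h⟩ := V_ge
      refine lt_of_lt_of_le ?_ (h _ (qq t).2.two_le)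
      exact div_pos hc (Real.log_pos (by exact_mod_cast (qq t).2.one_lt))
    have hlog : Tendsto (fun x : ℕ => Real.log (x : ℝ)) atTop atTop :=
      Real.tendsto_log_atTop.comp tendsto_natCast_atTop_atTop
    filter_upwards [hlog.eventually_ge_atTop (1 / V (qq t : ℕ))] with x hx
    rw [div_le_iff₀ hV] at hx
    linarith
  obtain ⟨B, hB⟩ := eventually_atTop.1 hkill
  obtain ⟨b, hb⟩ : ∃ b : ℕ, b = ∑ t ∈ range T, (β t).natAbs := ⟨_, rfl⟩
  obtain ⟨K, hK⟩ : ∃ K : ℕ, K = B + b + 100 := ⟨_, rfl⟩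
  obtain ⟨u, hu⟩ : ∃ u : ℕ, u = n1 + 6 * (Q * K) := ⟨_, rfl⟩
  have hQK : K ≤ Q * K := Nat.le_mul_of_pos_left K hQ0
  refine ⟨u, ?_, by omega, fun t ht w hw => ?_⟩
  · have h1 : n1 % 6 = r % 6 := hn2
    omega
  · have htT : t ∈ range T := mem_range.2 ht
    have hbt : (β t).natAbs ≤ b := by
      rw [hb]
      exact single_le_sum (f := fun t => (β t).natAbs) (fun _ _ => Nat.zero_le _) htT
    have hwu : B + 100 ≤ w := by
      rcases hα t with h | h <;> rw [h] at hw <;> omega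
    refine ⟨fun hmem => ?_, by omega⟩
    have : Fact ((qq t : ℕ).Prime) := ⟨(qq t).2⟩
    have : NeZero (qq t : ℕ) := ⟨(qq t).2.ne_zero⟩
    refine hmem.2 (qq t) (hB w (by omega) t htT) ?_
    have hQt : (qq t : ℕ) ∣ Q := dvd_prod_of_mem _ htT
    have e1 : ((n0 : ℕ) : ZMod (qq t : ℕ)) = (a (qq t) - ((β t : ℤ) : ZMod (qq t : ℕ))) / ((α t : ℤ) : ZMod (qq t : ℕ)) := by
      have h1 := (ZMod.natCast_eq_natCast_iff _ _ _).mpr (hn0 t htT)
      rw [h1, ZMod.natCast_val, ZMod.cast_id', id]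
    have e2 : ((n1 : ℕ) : ZMod (qq t : ℕ)) = ((n0 : ℕ) : ZMod (qq t : ℕ)) := by
      rw [ZMod.natCast_eq_natCast_iff]
      exact Nat.ModEq.of_dvd hQt hn1
    have e3 : ((u : ℕ) : ZMod (qq t : ℕ)) = ((n1 : ℕ) : ZMod (qq t : ℕ)) := by
      rw [hu]
      push_cast
      have : ((Q : ℕ) : ZMod (qq t : ℕ)) = 0 := (ZMod.natCast_eq_zero_iff _ _).2 hQt
      rw [this]
      ring
    have e4 : ((w : ℕ) : ZMod (qq t : ℕ)) = ((α t : ℤ) : ZMod (qq t : ℕ)) * ((u : ℕ) : ZMod (qq t : ℕ)) + ((β t : ℤ) : ZMod (qq t : ℕ)) := by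
      have : ((w : ℤ) : ZMod (qq t : ℕ)) = ((α t * u + β t : ℤ) : ZMod (qq t : ℕ)) := by rw [hw]
      push_cast at this
      exact this
    rw [e4, e3, e2, e1, mul_div_cancel₀ _ (two_ne (qq_gt t) (hα t))]
    ring

theorem V_two : V 2 = 1 / 2 := by
  have : (Finset.Icc 1 2).filter Nat.Prime = {2} := by decide
  unfold V
  rw [this]
  norm_num

theorem V_three : V 3 = 1 / 3 := by
  have : (Finset.Icc 1 3).filter Nat.Prime = {2, 3} := by decide
  unfold V
  rw [this]
  rw [prod_insert (by norm_num), prod_singleton]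
  norm_num

theorem exp_two_gt : (7 : ℝ) < Real.exp 2 := by
  have : Real.exp 2 = Real.exp 1 * Real.exp 1 := by rw [← Real.exp_add]; norm_num
  rw [this]
  have := Real.exp_one_gt_d9
  nlinarith

theorem exp_three_lt : Real.exp 3 < 21 := by
  have : Real.exp 3 = Real.exp 1 * Real.exp 1 * Real.exp 1 := by
    rw [← Real.exp_add, ← Real.exp_add]
    norm_num
  rw [this]
  have h1 := Real.exp_one_lt_d9
  have h0 := Real.exp_pos 1
  have h2 : Real.exp 1 * Real.exp 1 < 2.7182818286 * 2.7182818286 := by nlinarith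
  nlinarith

/-- the properties of the model primes and of `1` -/
theorem props {a : (p : Nat.Primes) → ZMod (p : ℕ)} (h0 : Zero a) {m : ℕ} (hm : m = 1 ∨ m ∈ Pm a) :
    m % 2 = 1 ∧ (m % 3 = 0 → m = 3 ∨ m = 9 ∨ m = 15) := by
  rcases hm with rfl | hm
  · omega
  unfold Pm at hm
  rcases hm with rfl | rfl | rfl | hm
  · omega
  · omega
  · omega
  obtain ⟨h1, h2⟩ := hm
  have h8 : 8 ≤ m := by
    have h3 := exp_two_gt.trans_le h1
    have : 7 < m := by exact_mod_cast h3
    omega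
  have hm0 : (0 : ℝ) < m := by exact_mod_cast (by omega : 0 < m)
  have hodd : m % 2 = 1 := by
    have h3 := h2 ⟨2, Nat.prime_two⟩ (by
      show 1 ≤ V 2 * Real.log m
      rw [V_two]
      have : 2 ≤ Real.log m := (Real.le_log_iff_exp_le hm0).2 h1
      linarith)
    rw [h0.1] at h3
    have h4 : ¬ (2 : ℕ) ∣ m := fun h5 => h3 ((ZMod.natCast_eq_zero_iff m 2).2 h5)
    omega
  refine ⟨hodd, fun h3m => ?_⟩
  have hlt : m < 21 := by
    by_contra hcon
    push Not at hcon
    have h3 := h2 ⟨3, Nat.prime_three⟩ (by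
      show 1 ≤ V 3 * Real.log m
      rw [V_three]
      have : 3 ≤ Real.log m := (Real.le_log_iff_exp_le hm0).2 (exp_three_lt.le.trans (by exact_mod_cast hcon))
      linarith)
    rw [h0.2] at h3
    exact h3 ((ZMod.natCast_eq_zero_iff m 3).2 (Nat.dvd_of_mod_eq_zero h3m))
  omega

/-- the ends of the path -/
theorem end_of {Q : ℕ → Prop} (hQ : ∀ m, Q m → m % 2 = 1 ∧ (m % 3 = 0 → m = 3 ∨ m = 9 ∨ m = 15)) {u x : ℕ} (hu : 100 ≤ u) (hu3 : u % 3 ≠ 0)
    (k1 : ¬ Q (2 * u + 3)) (k2 : ¬ Q (2 * u - 3)) (k3 : ¬ Q (2 * u + 9)) (k4 : ¬ Q (2 * u - 9))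
    (k5 : ¬ Q (2 * u + 15)) (k6 : ¬ Q (2 * u - 15)) (h1 : Q (u + x)) (h2 : Q (Nat.dist u x)) : x % 3 = 0 := by
  by_contra hx
  obtain ⟨a1, a2⟩ := hQ _ h1
  obtain ⟨b1, b2⟩ := hQ _ h2
  have a3 : (u + x) % 3 ≠ 0 := by
    intro h
    have := a2 h
    omega
  have hux : u % 3 = x % 3 := by
    have h5 : u % 3 = 1 ∨ u % 3 = 2 := by omega
    have h6 : x % 3 = 1 ∨ x % 3 = 2 := by omega
    rcases h5 with h5 | h5 <;> rcases h6 with h6 | h6 <;> omega
  rcases le_total x u with h | h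
  · rw [Nat.dist_eq_sub_of_le_right h] at b1 b2
    have h3 : (u - x) % 3 = 0 := by omega
    rcases b2 h3 with h4 | h4 | h4
    · have : u + x = 2 * u - 3 := by omega
      exact k2 (this ▸ h1)
    · have : u + x = 2 * u - 9 := by omega
      exact k4 (this ▸ h1)
    · have : u + x = 2 * u - 15 := by omega
      exact k6 (this ▸ h1)
  · rw [Nat.dist_eq_sub_of_le h] at b1 b2
    have h3 : (x - u) % 3 = 0 := by omega
    rcases b2 h3 with h4 | h4 | h4
    · have : u + x = 2 * u + 3 := by omega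
      exact k1 (this ▸ h1)
    · have : u + x = 2 * u + 9 := by omega
      exact k3 (this ▸ h1)
    · have : u + x = 2 * u + 15 := by omega
      exact k5 (this ▸ h1)

theorem lower {a : (p : Nat.Primes) → ZMod (p : ℕ)} (h0 : Zero a) : ∃ u v : ℕ, 1 ≤ u ∧ 1 ≤ v ∧
    ∀ P S : Set ℕ, (∀ m ∈ P, m = 1 ∨ m ∈ Pm a) → 5 ≤ (HG P S).edist u v := by
  have big : ∀ {m : ℕ}, m ∉ R a → 100 ≤ m → ¬ (m = 1 ∨ m ∈ Pm a) := by
    rintro m hm h8 (rfl | rfl | rfl | rfl | h)
    · omega
    · omega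
    · omega
    · omega
    · exact hm h
  obtain ⟨u, hu6, hu100, hu⟩ := exists_kill a 9 1 (by norm_num) (fun t => if t < 6 then 2 else 1)
    (fun t => if t = 0 then 3 else if t = 1 then -3 else if t = 2 then 9 else if t = 3 then -9 else
      if t = 4 then 15 else if t = 5 then -15 else if t = 6 then 0 else if t = 7 then 6 else 12)
    (fun t => by by_cases h : t < 6 <;> simp [h])
  obtain ⟨v, hv6, hv100, hv⟩ := exists_kill a 6 2 (by norm_num) (fun _ => 2)
    (fun t => if t = 0 then 3 else if t = 1 then -3 else if t = 2 then 9 else if t = 3 then -9 else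
      if t = 4 then 15 else -15)
    (fun t => Or.inr rfl)
  refine ⟨u, v, by omega, by omega, fun P S hP => ?_⟩
  have hQ := fun m (hm : m = 1 ∨ m ∈ Pm a) => props h0 hm
  have kill : ∀ {m : ℕ}, (m ∉ R a ∧ 100 ≤ m) → ¬ (m = 1 ∨ m ∈ Pm a) := fun h => big h.1 h.2
  have u1 := kill (hu 0 (by norm_num) (2 * u + 3) (by norm_num))
  have u2 := kill (hu 1 (by norm_num) (2 * u - 3) (by norm_num; omega))
  have u3 := kill (hu 2 (by norm_num) (2 * u + 9) (by norm_num))
  have u4 := kill (hu 3 (by norm_num) (2 * u - 9) (by norm_num; omega))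
  have u5 := kill (hu 4 (by norm_num) (2 * u + 15) (by norm_num))
  have u6 := kill (hu 5 (by norm_num) (2 * u - 15) (by norm_num; omega))
  have u7 := kill (hu 6 (by norm_num) u (by norm_num))
  have u8 := kill (hu 7 (by norm_num) (u + 6) (by norm_num))
  have u9 := kill (hu 8 (by norm_num) (u + 12) (by norm_num))
  have v1 := kill (hv 0 (by norm_num) (2 * v + 3) (by norm_num))
  have v2 := kill (hv 1 (by norm_num) (2 * v - 3) (by norm_num; omega))
  have v3 := kill (hv 2 (by norm_num) (2 * v + 9) (by norm_num))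
  have v4 := kill (hv 3 (by norm_num) (2 * v - 9) (by norm_num; omega))
  have v5 := kill (hv 4 (by norm_num) (2 * v + 15) (by norm_num))
  have v6 := kill (hv 5 (by norm_num) (2 * v - 15) (by norm_num; omega))
  by_contra hcon
  push Not at hcon
  obtain ⟨w, hw⟩ := SimpleGraph.exists_walk_of_edist_ne_top (ne_top_of_lt hcon)
  rw [← hw] at hcon
  have hlen : w.length < 5 := by exact_mod_cast hcon
  clear hw hcon
  have par : ∀ b c, (HG P S).Adj b c → (b + c) % 2 = 1 := fun b c h => (hQ _ (hP _ h.2.2.2.1)).1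
  cases w with
  | nil => omega
  | @cons _ x _ e1 w =>
    have p1 := par _ _ e1
    cases w with
    | nil =>
      have h := (hQ _ (hP _ e1.2.2.2.1)).2 (by omega)
      omega
    | @cons _ y _ e2 w =>
      have p2 := par _ _ e2
      cases w with
      | nil => omega
      | @cons _ z _ e3 w =>
        have p3 := par _ _ e3
        cases w with
        | nil =>
          have a1 := hP _ e1.2.2.2.1
          have a2 := hP _ e1.2.2.2.2
          have c1 := hP _ e3.2.2.2.1
          have c2 := hP _ e3.2.2.2.2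
          rw [add_comm] at c1
          rw [Nat.dist_comm] at c2
          have r1 := end_of hQ hu100 (by omega) u1 u2 u3 u4 u5 u6 a1 a2
          have r2 := end_of hQ hv100 (by omega) v1 v2 v3 v4 v5 v6 c1 c2
          have r3 := (hQ _ (hP _ e2.2.2.2.1)).2 (by omega)
          have r4 : x = 0 ∨ x = 6 ∨ x = 12 := by omega
          rcases r4 with rfl | rfl | rfl
          · exact u7 a1
          · exact u8 a1
          · exact u9 a1
        | @cons _ t _ e4 w =>
          have p4 := par _ _ e4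
          cases w with
          | nil => omega
          | cons e5 w =>
            simp only [SimpleGraph.Walk.length_cons] at hlen
            omega

end Pool.Agent.W2helper62.GG
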