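import Pool.Agent.W2helper62.GG.G4

set_option autoImplicit false

/-!
Transfer to graphs on other vertex types; the almost sure statement.
-/

namespace Pool.Agent.W2helper62.GG

open Finset Filter Topology MeasureTheory Pool.Agent.W2helper64.RS Pool.Agent.W2helper64.RK

section transfer

variable {V : Type*} {G : SimpleGraph V} {f : V → ℕ} {P S : Set ℕ}

theorem edist_le_of_walk (hinj : Function.Injective f) (hS : ∀ x ∈ S, ∃ w, f w = x)
    (hadj : ∀ x y, (HG P S).Adj (f x) (f y) → G.Adj x y) :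
    ∀ {i j : ℕ} (w : (HG P S).Walk i j) (x y : V), f x = i → f y = j → G.edist x y ≤ w.length := by
  intro i j w
  induction w with
  | nil =>
    intro x y hx hy
    have : x = y := hinj (hx.trans hy.symm)
    subst this
    simp
  | @cons i k j e w ih =>
    intro x y hx hy
    obtain ⟨z, hz⟩ := hS k e.2.2.1
    have h1 : G.Adj x z := hadj x z (by rw [hx, hz]; exact e)
    have h2 := ih z y hz hy
    rw [SimpleGraph.Walk.length_cons]
    push_cast
    rw [add_comm]
    exact (SimpleGraph.edist_triangle (v := z)).trans (add_le_add (edist_adj h1) h2)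

theorem edist_transfer (hinj : Function.Injective f) (hS : ∀ x ∈ S, ∃ w, f w = x)
    (hadj : ∀ x y, G.Adj x y ↔ (HG P S).Adj (f x) (f y)) (x y : V) :
    G.edist x y = (HG P S).edist (f x) (f y) := by
  apply le_antisymm
  · by_cases htop : (HG P S).edist (f x) (f y) = ⊤
    · rw [htop]; exact le_top
    · obtain ⟨w, hw⟩ := SimpleGraph.exists_walk_of_edist_ne_top htop
      rw [← hw]
      exact edist_le_of_walk hinj hS (fun x y => (hadj x y).2) w x y rfl rfl
  · by_cases htop : G.edist x y = ⊤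
    · rw [htop]; exact le_top
    · obtain ⟨w, hw⟩ := SimpleGraph.exists_walk_of_edist_ne_top htop
      rw [← hw]
      let F : G →g HG P S := ⟨f, fun {a b} h => (hadj a b).1 h⟩
      have : (w.map F).length = w.length := SimpleGraph.Walk.length_map _ _
      rw [← this]
      exact SimpleGraph.edist_le (w.map F)

theorem ediam_five (hinj : Function.Injective f) (hS : ∀ x ∈ S, ∃ w, f w = x) (hS' : ∀ w, f w ∈ S)
    (hadj : ∀ x y, G.Adj x y ↔ (HG P S).Adj (f x) (f y))
    (hup : ∀ u ∈ S, ∀ v ∈ S, (HG P S).edist u v ≤ 5)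
    (hlow : ∃ u ∈ S, ∃ v ∈ S, 5 ≤ (HG P S).edist u v) : G.Connected ∧ G.ediam = 5 := by
  have h5 : G.ediam = 5 := by
    apply le_antisymm
    · exact SimpleGraph.ediam_le_of_edist_le fun u v => by
        rw [edist_transfer hinj hS hadj]
        exact hup _ (hS' u) _ (hS' v)
    · obtain ⟨u, hu, v, hv, h⟩ := hlow
      obtain ⟨x, rfl⟩ := hS u hu
      obtain ⟨y, rfl⟩ := hS v hv
      rw [← edist_transfer hinj hS hadj] at h
      exact h.trans SimpleGraph.edist_le_ediam
  refine ⟨?_, h5⟩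
  obtain ⟨u, hu, -⟩ := hlow
  obtain ⟨x, -⟩ := hS u hu
  have : Nonempty V := ⟨x⟩
  exact SimpleGraph.connected_of_ediam_ne_top (by rw [h5]; exact ENat.natCast_ne_top 5)

end transfer

theorem ae_final : ∀ᵐ a ∂law, Zero a → ∀ᶠ n : ℕ in atTop, ∀ P S : Set ℕ, Pm a ⊆ P →
    (∀ m ∈ P, m = 1 ∨ m ∈ Pm a) → (∀ x, 1 ≤ x → x ≤ n → x ∈ S) → (∀ x ∈ S, x ≤ n) →
    (∀ u ∈ S, ∀ v ∈ S, (HG P S).edist u v ≤ 5) ∧ (∃ u ∈ S, ∃ v ∈ S, 5 ≤ (HG P S).edist u v) := by
  filter_upwards [ae_sel] with a ha h0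
  obtain ⟨u, v, hu, hv, huv⟩ := lower h0
  filter_upwards [ha h0, eventually_ge_atTop u, eventually_ge_atTop v] with n hn hnu hnv P S hP hP' hS1 hS2
  obtain ⟨W, hW, hsel⟩ := hn
  exact ⟨upper hW hsel hP hS1 hS2, u, hS1 u hu hnu, v, hS1 v hv hnv, huv P S hP'⟩

/-- the prime `2` -/
def P2 : Nat.Primes := ⟨2, Nat.prime_two⟩
/-- the prime `3` -/
def P3 : Nat.Primes := ⟨3, Nat.prime_three⟩

theorem prob_Zero : law {a | Zero a} = 1 / 6 := by
  classical
  have h1 : {a : (p : Nat.Primes) → ZMod (p : ℕ) | Zero a} =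
      Set.pi (({P2, P3} : Finset Nat.Primes) : Set Nat.Primes) (fun p => {(0 : ZMod (p : ℕ))}) := by
    ext a
    rw [Set.mem_pi]
    simp only [Finset.coe_insert, Finset.coe_singleton, Set.mem_insert_iff, Set.mem_singleton_iff, forall_eq_or_imp,
      forall_eq]
    rfl
  rw [h1]
  unfold law
  rw [Measure.infinitePi_pi _ (fun i _ => (Set.toFinite _).measurableSet)]
  have hne : P2 ∉ ({P3} : Finset Nat.Primes) := by
    rw [Finset.mem_singleton]
    intro h
    have h2 : (2 : ℕ) = 3 := congrArg Subtype.val h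
    omega
  rw [prod_insert hne, prod_singleton, unif_single, unif_single]
  have e2 : ((P2 : ℕ) : ℝ) = 2 := by show ((2 : ℕ) : ℝ) = 2; norm_num
  have e3 : ((P3 : ℕ) : ℝ) = 3 := by show ((3 : ℕ) : ℝ) = 3; norm_num
  rw [e2, e3, ← ENNReal.ofReal_mul (by positivity)]
  have : (1 : ENNReal) / 6 = ENNReal.ofReal (1 / 6) := by
    rw [ENNReal.ofReal_div_of_pos (by norm_num)]
    norm_num
  rw [this]
  congr 1
  norm_num

end Pool.Agent.W2helper62.GG
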